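import Pool.Agent.V11192.Frames.Final

/-!
For all nonzero vectors of three-space there is a frame (immersed smooth closed curve) such that
every membrane (immersed smooth disk) spanned by it realizes each of the vectors as a normal
direction.
-/

set_option autoImplicit false
open Set Metric
open scoped ContDiff

namespace Pool.Agent.Results.MP_873223_gt.AllDirections

/-- `l` is a frame: the image of a smooth immersion of the circle `ℝ / 2πℤ`. -/
def IsFrame {V : Type*} [NormedAddCommGroup V] [NormedSpace ℝ V] (l : Set V) : Prop :=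
  ∃ h : ℝ → V, ContDiff ℝ ∞ h ∧ Function.Periodic h (2 * Real.pi) ∧ (∀ t, deriv h t ≠ 0) ∧
    range h = l

/-- `H` is a membrane spanned by `l`: a smooth immersion of the closed unit disk mapping the
boundary circle onto `l`. -/
def IsMembrane {W V : Type*} [NormedAddCommGroup W] [NormedSpace ℝ W] [NormedAddCommGroup V]
    [NormedSpace ℝ V] (H : W → V) (l : Set V) : Prop :=
  ContDiffOn ℝ ∞ H (closedBall 0 1) ∧
    (∀ x ∈ closedBall (0 : W) 1, Function.Injective (fderivWithin ℝ H (closedBall 0 1) x)) ∧
    H '' sphere 0 1 = l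

/-- The membrane `H` realizes `ξ`: the orthogonal complement of the tangent plane at some point of
the closed disk is the line spanned by `ξ`. -/
def Realizes {W V : Type*} [NormedAddCommGroup W] [NormedSpace ℝ W] [NormedAddCommGroup V]
    [InnerProductSpace ℝ V] (H : W → V) (ξ : V) : Prop :=
  ∃ x ∈ closedBall (0 : W) 1,
    (LinearMap.range (fderivWithin ℝ H (closedBall 0 1) x).toLinearMap)ᗮ = ℝ ∙ ξ

/-- Every membrane (over the disk of `W`) spanned by `l` realizes each of the vectors `ξ i`. -/
def Forces (W : Type*) {V : Type*} [NormedAddCommGroup W] [NormedSpace ℝ W] [NormedAddCommGroup V]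
    [InnerProductSpace ℝ V] {k : ℕ} (l : Set V) (ξ : Fin k → V) : Prop :=
  ∀ H : W → V, IsMembrane H l → ∀ i, Realizes H (ξ i)

theorem result (k : ℕ) (ξ : Fin k → EuclideanSpace ℝ (Fin 3)) (hξ : ∀ i, ξ i ≠ 0) :
    ∃ l : Set (EuclideanSpace ℝ (Fin 3)),
      IsFrame l ∧ Forces (EuclideanSpace ℝ (Fin 2)) l ξ := by
  obtain ⟨b, hb⟩ := Pool.Agent.V11192.Frames.exists_basis (V := EuclideanSpace ℝ (Fin 3))
    (by simp) k ξ hξ
  obtain ⟨Q, hQ, hanti, hQne, hQξ⟩ := Pool.Agent.V11192.Frames.exists_profile k
    (fun i => inner ℝ (b 0) (ξ i)) (fun i => inner ℝ (b 1) (ξ i)) (fun i => inner ℝ (b 2) (ξ i)) hb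
  have hQper : ∀ s, Q (s + 4 * Real.pi) = Q s := by
    intro s
    rw [show s + 4 * Real.pi = (s + 2 * Real.pi) + 2 * Real.pi by ring, hanti, hanti, neg_neg]
  refine ⟨range (Pool.Agent.V11192.Frames.cv b Q),
    ⟨fun t => Pool.Agent.V11192.Frames.cv b Q (2 * t), ?_, ?_, ?_, ?_⟩, ?_⟩
  · exact (Pool.Agent.V11192.Frames.cv_contDiff b Q hQ).comp (contDiff_const.mul contDiff_id)
  · intro t
    have h1 : 2 * (t + 2 * Real.pi) = 2 * t + 4 * Real.pi := by ring
    have h2 : 2 * t + 4 * Real.pi = (2 * t + 2 * Real.pi) + 2 * Real.pi := by ring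
    simp only [Pool.Agent.V11192.Frames.cv]
    rw [h1, hQper, h2, Real.cos_add_two_pi, Real.cos_add_two_pi, Real.sin_add_two_pi,
      Real.sin_add_two_pi]
  · intro t
    rw [deriv_comp_mul_left]
    exact smul_ne_zero two_ne_zero (Pool.Agent.V11192.Frames.cv_deriv_ne b Q hQ _)
  · ext v
    constructor
    · rintro ⟨t, rfl⟩
      exact ⟨2 * t, rfl⟩
    · rintro ⟨s, rfl⟩
      refine ⟨s / 2, ?_⟩
      simp only
      congr 1
      ring
  · rintro H ⟨hH, himm, hbd⟩ i
    set e : ℂ ≃ₗᵢ[ℝ] EuclideanSpace ℝ (Fin 2) := Complex.orthonormalBasisOneI.repr with he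
    have hpre : e.toContinuousLinearEquiv ⁻¹' closedBall 0 1 = closedBall (0 : ℂ) 1 := by
      ext z
      simp
    have hBu : UniqueDiffOn ℝ (closedBall (0 : ℂ) 1) :=
      uniqueDiffOn_convex (convex_closedBall _ _)
        (by rw [interior_closedBall _ one_ne_zero]; exact nonempty_ball.2 one_pos)
    have hfd : ∀ z ∈ closedBall (0 : ℂ) 1,
        fderivWithin ℝ (H ∘ e) (closedBall 0 1) z =
          (fderivWithin ℝ H (closedBall 0 1) (e z)).comp
            (e.toContinuousLinearEquiv : ℂ →L[ℝ] EuclideanSpace ℝ (Fin 2)) := by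
      intro z hz
      have := e.toContinuousLinearEquiv.comp_right_fderivWithin (f := H) (s := closedBall 0 1)
        (x := z) (by rw [hpre]; exact hBu z hz)
      rw [hpre] at this
      exact this
    have hez : ∀ z ∈ closedBall (0 : ℂ) 1, e z ∈ closedBall (0 : EuclideanSpace ℝ (Fin 2)) 1 := by
      intro z hz
      rw [mem_closedBall_zero_iff] at hz ⊢
      rwa [e.norm_map]
    obtain ⟨x, hx, hx0⟩ := Pool.Agent.V11192.Frames.main_vec b Q hQ hanti hQne (H ∘ e)
      (hH.comp e.contDiff.contDiffOn hez)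
      (by
        intro z hz
        rw [hfd z hz]
        exact (himm _ (hez z hz)).comp e.injective)
      (by
        rw [image_comp, ← hbd]
        congr 1
        ext v
        constructor
        · rintro ⟨z, hz, rfl⟩
          rw [mem_sphere_zero_iff_norm] at hz ⊢
          rwa [e.norm_map]
        · intro hv
          refine ⟨e.symm v, ?_, e.apply_symm_apply v⟩
          rw [mem_sphere_zero_iff_norm] at hv ⊢
          rwa [e.symm.norm_map])
      (ξ i) (hb i) (fun s => (hQξ i s).1) (fun s => (hQξ i s).2)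
    refine ⟨e x, hez x hx, ?_⟩
    set T := fderivWithin ℝ H (closedBall 0 1) (e x) with hT
    have hTi : Function.Injective T := himm _ (hez x hx)
    have horth : ∀ v, inner ℝ (T v) (ξ i) = 0 := by
      intro v
      have h1 := hx0 (e.symm v)
      rw [hfd x hx] at h1
      simpa using h1
    have hle : (ℝ ∙ ξ i) ≤ (LinearMap.range T.toLinearMap)ᗮ := by
      rw [Submodule.span_singleton_le_iff_mem, Submodule.mem_orthogonal]
      rintro _ ⟨v, rfl⟩
      exact horth v
    have h2 : Module.finrank ℝ (LinearMap.range T.toLinearMap) = 2 := by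
      rw [LinearMap.finrank_range_of_inj hTi]
      simp
    have h3 := Submodule.finrank_add_finrank_orthogonal (LinearMap.range T.toLinearMap)
    rw [h2, finrank_euclideanSpace_fin] at h3
    symm
    apply Submodule.eq_of_le_of_finrank_eq hle
    rw [finrank_span_singleton (hξ i)]
    omega

end Pool.Agent.Results.MP_873223_gt.AllDirections
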